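import Pool.Agent.helper65.MF.Inst
import Pool.Agent.helper63.MF.PreRows
import Pool.Agent.helper49.MF.GRowC
import Pool.Agent.helper34.MF.Dom
import Pool.Agent.helper31.MF.EndX

/-!
# MP_141f81, Section 9: the row side `RowsEndX`
-/

set_option autoImplicit false

namespace Pool.Agent.helper65.MF

open Finset Helper34MF Pool.Agent.helper20.MF
open Pool.Agent.helper35.MF (Ball)
open Pool.Agent.helper42.MF (Lv mem_Lv RowF)
open Pool.Agent.helper63.MF (Dat RowsIn Colr PreOut)
open Pool.Agent.MF (Mat LinPart EndAlg KillAlg EMOut JCOut sub Exact EndX RowsEndX StmtSub)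
open Pool.Agent.MF.LemT (nr kr Lab)
open Pool.Agent.MF.PopC

/-- **R8**: the row side. -/
theorem rowsEndX (hSub : StmtSub) : RowsEndX 12 := by
  intro N _ _ _ M Lin a b D mul sq th ze g s hKA hE T
  classical
  obtain ⟨κ, c, K, C1, C, hκ, hκc, hinst⟩ := inst hSub M Lin a b (J := 12) (ℓ := 5) (by omega) (by omega)
    D mul sq th ze g s hKA hE T
  obtain ⟨K1, hK1, hpre⟩ := Pool.Agent.helper63.MF.stmtPre C
  obtain ⟨K2, hK2, hcomm⟩ := comm_W K1
  obtain ⟨K3, hdom⟩ := dom_W (K1 + K2)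
  obtain ⟨K4, hK4⟩ : ∃ K4, K4 = K + C1 + K1 + 1 := ⟨_, rfl⟩
  have hc0 : 0 < c := by
    rcases Nat.eq_zero_or_pos c with rfl | h
    · rw [Nat.cast_zero, mul_zero] at hκc
      exact absurd hκc (by norm_num)
    · exact h
  have hcK : (0 : ℝ) < ((c * K1 : ℕ) : ℝ) := by
    have : 0 < c * K1 := Nat.mul_pos hc0 hK1
    exact_mod_cast this
  obtain ⟨c', hc'⟩ : ∃ c' : ℝ, c' = ((c * K1 : ℕ) : ℝ)⁻¹ := ⟨_, rfl⟩
  have hc'0 : 0 < c' := by
    rw [hc']
    exact inv_pos.mpr hcK
  obtain ⟨C', hC'⟩ : ∃ C', C' = K1 + K2 + K3 + C1 + Pool.Agent.helper49.MF.KR T K4 := ⟨_, rfl⟩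
  rcases Nat.eq_zero_or_pos T with hT | hT
  · refine ⟨1, 0, 0, one_pos, ?_⟩
    intro n R S U i1 i2 i3 π hn h
    obtain ⟨κ', hκ', -⟩ := h.jc
    rw [hT, Nat.cast_zero, mul_zero] at hκ'
    exact absurd hκ' (by norm_num)
  have hK41 : 1 ≤ K4 := by omega
  have hδ : 0 < Pool.Agent.helper49.MF.dR c' T K4 := Pool.Agent.helper49.MF.dR_pos hc'0 hT hK41
  refine ⟨Pool.Agent.helper49.MF.dR c' T K4, C', c * T, hδ, ?_⟩
  intro n R S U i1 i2 i3 π hn h
  obtain ⟨S2, A, φ, γ, σ, Θ, Z, L, VV, ν, U0, hJ, hne, hex, hcard, hRF, hLO, hRI⟩ :=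
    hinst n R S U i1 i2 i3 π hn h
  obtain ⟨P, W, Θ0, ζ0, g0, s0, φ0, hP⟩ := hpre U (N → Fin n) _ hRI
  obtain ⟨E, hE1, hE2⟩ := hP.fφ
  have hPS2 : P ⊆ S2 := hP.sub
  have hPS : P ⊆ S := hPS2.trans hJ.1
  have hSR : S ⊆ R := by
    obtain ⟨κ', -, hj⟩ := h.jc
    exact hj.1
  have hPcard : S2.card ≤ K1 * P.card := hP.card
  -- the rows of (J)
  have hrows := Pool.Agent.helper49.MF.rows_J (t := 5) (S3 := P) (ν := ν) (VV := VV) (F0 := E) (φ := φ0)
      (L := L) (Aop := A) (K := K4) (c := c') hKA hE (by omega)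
      (fun v => mem_Lv (D := D) (t := 5) (v := v)) h hPS
      (by
        intro v hv hv0 η hη
        have h1 := (hRF.oA v (mem_Lv.1 hv) hv0 η hη).sec
        exact ⟨h1.mem, h1.le.trans (by omega)⟩)
      (fun u v => (hLO.add u v).trans (by omega))
      (by
        intro v hv hv0 η hη
        refine ⟨hLO.mem η (hPS2 hη) v hv hv0, ?_⟩
        have h1 := hLO.op η (hPS2 hη) v hv hv0
        rw [add_assoc] at h1
        exact h1.trans (by omega))
      (hLO.cardV.trans (by omega)) (hE1.trans (by omega)) (fun η hη => hE2 η hη) hK41 hn hc'0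
      (by
        have h1 : n ^ M.r ≤ c * K1 * P.card := by
          rw [mul_assoc]
          exact hcard.trans (Nat.mul_le_mul_left _ hPcard)
        have h2 : ((n : ℝ) ^ M.r) ≤ ((c * K1 : ℕ) : ℝ) * (P.card : ℝ) := by exact_mod_cast h1
        rw [hc', inv_mul_le_iff₀ hcK]
        exact h2)
  obtain ⟨-, B, A1, A2, A3, c1, c2, c3, c0, hB, e1, e2, r0, r1, r2, r3⟩ := hrows
  have hKR : Pool.Agent.helper49.MF.KR T K4 ≤ C' := by omega
  -- commutators
  have hlet := hP.letters
  obtain ⟨P', W', hne', hW'eq, hW'it, hW'W, hW'ind, hdens, hgen, hAL, hAA, hLL, hSq⟩ :=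
    hcomm U Θ0 ζ0 g0 s0 φ0 L W {z // z ∈ P} _ _ hlet
  have hdm := hdom U h.two L {z // z ∈ P} (fun z => π a (z.1 a)) (fun z => A a (z.1 a)) P' W'
    (fun u v => (hlet.add u v).trans (by omega)) (fun z z' => (hlet.AA z z').trans (by omega))
    (hW'ind.trans (by omega)) (fun u hu => Ball.mono' (by omega) (hgen u hu))
    (by
      intro z _
      obtain ⟨Dz, f, h1, h2⟩ := hP.dom z.1 z.2
      exact ⟨Dz, f, h1.trans (by omega), fun v hv => (h2 v hv).trans (by omega)⟩)
  refine ⟨
    { U := U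
      ag := i1
      ft := i2
      de := i3
      two := h.two
      W := W'
      hW := hW'ind.trans (by omega)
      L := L
      rL := fun u v => (hLO.add u v).trans (by omega)
      comm := fun u hu v hv => (hLL u hu v hv).trans (by omega)
      dom := ?_
      φ := φ0
      g := g0
      s := s0
      Θ := Θ0
      Z := ζ0
      kφ := hP.kφ.trans (by omega)
      kφ1 := hP.kφ1.trans (by omega)
      kg := hlet.lab.kg.trans (by omega)
      ks := hlet.lab.ks.trans (by omega)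
      kΘ := hlet.kT.trans (by omega)
      kZ := hP.kζ.trans (by omega)
      hS := fun u hu => (hSq u hu).trans (by omega)
      hφ := fun u hu => (hP.hφ u (hW'W hu)).trans (by omega)
      hg := fun u hu => (hP.hg u (hW'W hu)).trans (by omega)
      hs := fun u hu => (hP.hs u (hW'W hu)).trans (by omega)
      hΘ := fun u hu => (hP.hΘ u (hW'W hu)).trans (by omega)
      hZ := fun u hu => (hP.hζ u (hW'W hu)).trans (by omega)
      gT := hlet.lab.gT.trans (by omega)
      sT := hlet.lab.sT.trans (by omega)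
      zz := hlet.lab.zz.trans (by omega)
      B := B
      hB := hB
      A1 := A1
      A2 := A2
      A3 := A3
      c1 := c1
      c2 := c2
      c3 := c3
      c0 := c0
      id1 := e1
      id2 := e2
      r0 := fun p hp => (r0 p hp).trans hKR
      r1 := fun p hp p' hp' => (r1 p hp p' hp').trans hKR
      r2 := fun p hp p' hp' => (r2 p hp p' hp').trans hKR
      r3 := fun p hp p' hp' => (r3 p hp p' hp').trans hKR }, ?_⟩
  · intro u hu
    obtain ⟨D', hD1, hD2, f, hf⟩ := hdm u hu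
    exact ⟨D', hD1, hD2.trans (by omega), fun v hv => ⟨f v, (hf v hv).1, ((hf v hv).2).trans (by omega)⟩⟩
  · -- the size of `U`
    show n ≤ c * T * Fintype.card U
    have ha0 : a ≠ 0 := hKA.ind_ab.left_ne_zero
    obtain ⟨η0, hη0⟩ := hne
    have h1 : n ≤ c * (S2.image (fun ρ => ρ a)).card := by
      refine pop_letters (τ := ∅) (η := η0) h.exact hn ?_ ?_ ?_
      · have := M.rk_single a ha0
        rw [M.rk_empty, zero_add]
        simpa using this
      · intro ρ hρ
        rw [Pool.Agent.MF.sub_empty]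
        exact hSR (hJ.1 hρ)
      · rw [M.rk_empty, Nat.sub_zero]
        exact hcard
    have h2 := pop_values h ha0 (S2.image (fun ρ => ρ a)) (by
      intro x hx
      obtain ⟨ρ, hρ, rfl⟩ := mem_image.1 hx
      exact ⟨ρ, hSR (hJ.1 hρ), rfl⟩)
    have h3 : ((π a) '' ((S2.image (fun ρ => ρ a) : Finset (Fin n)) : Set (Fin n))).ncard ≤
        Fintype.card U := by
      rw [← Nat.card_eq_fintype_card, ← Set.ncard_univ]
      exact Set.ncard_le_ncard (Set.subset_univ _) (Set.toFinite _)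
    calc n ≤ c * (S2.image (fun ρ => ρ a)).card := h1
      _ ≤ c * (T * Fintype.card U) := Nat.mul_le_mul_left _ (h2.trans (Nat.mul_le_mul_left _ h3))
      _ = c * T * Fintype.card U := by ring

end Pool.Agent.helper65.MF
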