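import Pool.Agent.helper42.MF.RowF
import Pool.Agent.helper63.MF.PreIn
import Pool.Agent.MF.PopC
import Pool.Agent.helper53.MF9.LRows
import Pool.Agent.helper53.MF9.S2

/-!
# MP_141f81, Section 9: the rows give `RowsIn`

`LOut` is the output of `exists_L` for the letters of `S2` (roles of the level `t`).  `rowsIn` : `EMOut`, `EndAlg`,
`KillAlg`, a joint cleaning `S2` of `S`, the row facts `RowF` and `LOut` give `RowsIn`.
-/

set_option autoImplicit false

namespace Pool.Agent.helper65.MF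

open Finset Helper34MF Pool.Agent.helper20.MF
open Pool.Agent.helper42.MF (Lv mem_Lv RowF)
open Pool.Agent.helper63.MF (Dat RowsIn Colr)
open Pool.Agent.MF (Mat LinPart EndAlg KillAlg EMOut JCOut sub Exact)
open Pool.Agent.MF.LemT (nr kr Lab)
open Pool.Agent.MF.PopC

section

variable {N : Type} [AddCommGroup N] [Fintype N] [DecidableEq N] {M : Mat N} {Lin : Finset N} {J : ℕ}
  {D : ℕ → AddSubgroup N} {mul : N → N → N} {sq th ze g s : N → N} {a b : N}

/-- the output of `exists_L` for the letters of the rows `S2` -/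
structure LOut (D : ℕ → AddSubgroup N) (t K : ℕ) {n : ℕ} (S2 : Finset (N → Fin n)) {U : Type} [AddCommGroup U]
    (π : N → Fin n → U) (A : N → Fin n → AddMonoid.End U) (L : U → AddMonoid.End U)
    (VV : Finset (AddMonoid.End U)) : Prop where
  add : ∀ u v : U, nr (L (u + v) + (L u + L v)) ≤ K
  cV : VV.card ≤ K
  col : ∀ w ∈ D t, w ≠ 0 → ∀ ρ ∈ S2, ∃ ν ∈ VV, nr (A w (ρ w) + (L (π w (ρ w)) + ν)) ≤ K

/-- the data of PRE -/
noncomputable def dat (M : Mat N) (D : ℕ → AddSubgroup N) (mul : N → N → N) (sq th ze g s : N → N) (ℓ : ℕ)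
    (a b : N) {n : ℕ} (S S2 : Finset (N → Fin n)) {U : Type} [AddCommGroup U] (π : N → Fin n → U)
    (A : N → Fin n → AddMonoid.End U) (φ γ σ Θ Z : AddMonoid.End U) (L : U → AddMonoid.End U)
    (VV : Finset (AddMonoid.End U)) : Dat U (N → Fin n) where
  S := S2
  thr z := sub S2 {a} z
  L := L
  VV := VV
  pa z := π a (z a)
  pb z := π b (z b)
  pm z := π (mul a b) (z (mul a b))
  Aa z := A a (z a)
  Ab z := A b (z b)
  Am z := A (mul a b) (z (mul a b))
  Θ := Θ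
  ζ := Z
  g := γ
  s := σ
  φ := φ
  HΘ := Hc M π ∅ (Lv D ℓ) S th
  Hζ := Hc M π ∅ (Lv D ℓ) S ze
  Hg := Hc M π ∅ (Lv D ℓ) S g
  Hs := Hc M π ∅ (Lv D ℓ) S s
  Hφ := Hc M π ∅ (Lv D ℓ) S sq
  pΘ z := π (th a) (z (th a))
  pζ z := π (ze a) (z (ze a))
  pg z := π (g a) (z (g a))
  ps z := π (s a) (z (s a))
  pφ z := π (sq a) (z (sq a))
  AΘ z := A (th a) (z (th a))
  Aζ z := A (ze a) (z (ze a))
  Ag z := A (g a) (z (g a))
  As z := A (s a) (z (s a))
  Aφ z := A (sq a) (z (sq a))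
  Hm z := Hc M π {a} (Lv D ℓ) (sub S {a} z) (mul a)

theorem Op.mono {U : Type} [AddCommGroup U] {H : AddSubgroup (U × U)} {A : U →+ U} {K K' : ℕ} (h : Op H A K)
    (hK : K ≤ K') : Op H A K' :=
  ⟨⟨h.sec.mem, h.sec.le.trans hK⟩, h.dom.trans hK, h.rng.trans hK, h.ker.trans hK,
    h.card.trans (Nat.mul_le_mul_right _ hK)⟩

theorem Lab.mono {U : Type} [AddCommGroup U] [Finite U] {K K' : ℕ} {Θ ζ g s : AddMonoid.End U} (h : Lab K Θ ζ g s)
    (hK : K ≤ K') : Lab K' Θ ζ g s :=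
  ⟨h.two, h.kg.trans hK, h.ks.trans hK, h.gT.trans hK, h.sT.trans hK, h.zT.trans hK, h.zz.trans hK⟩

/-- a role whose closure contains a nonzero role is not zero -/
theorem ne_zero_of_cl {u v : N} (hv : v ≠ 0) (h : M.InCl {u} v) : u ≠ 0 := by
  rintro rfl
  have h1 : M.InCl ∅ v := h.trans (by
    intro w hw
    rw [mem_singleton] at hw
    rw [hw]
    exact Mat.inCl_zero _)
  exact hv (Mat.inCl_empty_iff.1 h1)

/-- **INST.** -/
theorem rowsIn (hKA : KillAlg M Lin a b (mul a) (mul b) sq) (hE : EndAlg M Lin J D mul sq th ze g s) (hJ : 4 ≤ J)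
    {ℓ K T c n : ℕ} (hℓ : 1 ≤ ℓ) (hℓJ : ℓ ≤ J) {R S S2 : Finset (N → Fin n)} (hn : 0 < n) {U : Type}
    [AddCommGroup U] [Fintype U] [DecidableEq U] {π : N → Fin n → U} (h : EMOut M n T R S U π)
    {κ : ℝ} (hjc : JCOut M Finset.univ κ S S2) (hκ : 1 ≤ κ * c)
    {A : N → Fin n → AddMonoid.End U} {φ γ σ Θ Z : AddMonoid.End U}
    (hF : RowF M D mul sq th ze g s ℓ K S π A φ γ σ Θ Z)
    {L : U → AddMonoid.End U} {VV : Finset (AddMonoid.End U)} (hL : LOut D 1 K S2 π A L VV) :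
    RowsIn (K + T * c * T) (dat M D mul sq th ze g s ℓ a b S S2 π A φ γ σ Θ Z L VV) := by
  classical
  obtain ⟨C, hC⟩ : ∃ C, C = K + T * c * T := ⟨_, rfl⟩
  have hKC : K ≤ C := by omega
  have hTC : T * c * T ≤ C := by omega
  rw [← hC]
  have hSR : S ⊆ R := by
    obtain ⟨κ', -, hj⟩ := h.jc
    exact hj.1
  have hS2S : S2 ⊆ S := hjc.1
  have hcard : n ^ M.r ≤ c * S2.card := jc_card hjc hκ
  have hne : S2.Nonempty := by
    rw [nonempty_iff_ne_empty]
    rintro rfl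
    rw [card_empty, mul_zero] at hcard
    have := Nat.pow_pos (n := M.r) hn
    omega
  obtain ⟨η0, hη0⟩ := hne
  have hη0S := hS2S hη0
  have hind := hKA.ind_ab
  have ha0 : a ≠ 0 := hind.left_ne_zero
  have hb0 : b ≠ 0 := hind.right_ne_zero
  have haD : a ∈ D 0 := (hE.lin a).2 hKA.a_mem
  have hbD : b ∈ D 0 := (hE.lin b).2 hKA.b_mem
  have haD1 : a ∈ D 1 := hE.mono 0 (by omega) haD
  have hbD1 : b ∈ D 1 := hE.mono 0 (by omega) hbD
  have hlev : ∀ t, t ≤ ℓ → D 0 ≤ D t := by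
    intro t ht
    induction t with
    | zero => exact le_refl _
    | succ t ih => exact (ih (by omega)).trans (hE.mono t (by omega))
  have haL : a ∈ Lv D ℓ := mem_Lv.2 (hlev ℓ le_rfl haD)
  have hbL : b ∈ Lv D ℓ := mem_Lv.2 (hlev ℓ le_rfl hbD)
  have hncl : ¬ M.InCl {a} b := by
    have := hind.right'
    rwa [insert_empty_eq] at this
  have hncla : ¬ M.InCl ∅ a := hind.left
  -- the roles are not zero
  have hm0 : mul a b ≠ 0 := by
    intro h0
    have h1 := hE.mul_cl' 0 (by omega) a haD b hbD ha0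
    rw [h0] at h1
    apply hncl
    refine h1.trans ?_
    intro w hw
    rcases mem_insert.1 hw with rfl | hw
    · exact Mat.inCl_mem (mem_singleton_self _)
    · rw [mem_singleton] at hw
      rw [hw]
      exact Mat.inCl_zero _
  have hth0 : th a ≠ 0 := ne_zero_of_cl ha0 (hE.th_cl' 0 (by omega) a haD)
  have hze0 : ze a ≠ 0 := ne_zero_of_cl ha0 (hE.ze_cl' 0 (by omega) a haD)
  have hg0 : g a ≠ 0 := ne_zero_of_cl ha0 (hE.g_cl' 0 (by omega) a haD)
  have hs0 : s a ≠ 0 := ne_zero_of_cl ha0 (hE.s_cl' 0 (by omega) a haD)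
  have hsq0 : sq a ≠ 0 := ne_zero_of_cl ha0 (hE.sq_cl' 0 (by omega) a haD)
  have hcol : ∀ w ∈ D 1, w ≠ 0 →
      Colr C L VV S2 (fun z => π w (z w)) (fun z => A w (z w)) := by
    intro w hw hw0 z hz
    obtain ⟨ν, h1, h2⟩ := hL.col w hw hw0 z hz
    exact ⟨ν, h1, h2.trans hKC⟩
  have hmem : ∀ (f : N → N), ∀ z ∈ S2, (π a (z a), π (f a) (z (f a))) ∈ Hc M π ∅ (Lv D ℓ) S f :=
    fun f z hz => Hc_mem (hS2S hz) haL hncla f
  -- densities
  have hdensa : ∀ m : ℕ, ∀ P ⊆ S2, S2.card ≤ m * P.card →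
      Fintype.card U ≤ m * C * (P.image (fun z => π a (z a))).card := by
    intro m P hP hm
    have h1 : n ^ M.r ≤ (c * m) * P.card := by
      rw [mul_assoc]
      exact hcard.trans (Nat.mul_le_mul_left _ hm)
    have h2 := pop_dense h hn ha0 ((hP.trans hS2S).trans hSR) h1
    rw [← coe_image, Set.ncard_coe_finset, Nat.card_eq_fintype_card] at h2
    refine h2.trans (Nat.mul_le_mul_right _ ?_)
    calc T * (c * m) * T = m * (T * c * T) := by ring
      _ ≤ m * C := Nat.mul_le_mul_left _ hTC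
  have hdensb : ∀ z ∈ S2, ∀ m : ℕ, ∀ Q ⊆ sub S2 {a} z, (sub S2 {a} z).card ≤ m * Q.card →
      Fintype.card U ≤ m * C * (Q.image (fun z => π b (z b))).card := by
    intro z hz m Q hQ hm
    have h0 := jc_sub_card hjc hκ (mem_univ {a}) hz
    have h1 : n ^ (M.r - M.rk {a}) ≤ (c * m) * Q.card := by
      rw [mul_assoc]
      exact h0.trans (Nat.mul_le_mul_left _ hm)
    have h3 : Q ⊆ sub R {a} z := by
      intro ρ hρ
      have h4 := mem_sub.1 (hQ hρ)
      exact mem_sub.2 ⟨hSR (hS2S h4.1), h4.2⟩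
    have h2 := pop_dense_sub h hn hb0 (Mat.not_inCl_iff.1 hncl) h3 h1
    rw [← coe_image, Set.ncard_coe_finset, Nat.card_eq_fintype_card] at h2
    refine h2.trans (Nat.mul_le_mul_right _ ?_)
    calc T * (c * m) * T = m * (T * c * T) := by ring
      _ ≤ m * C := Nat.mul_le_mul_left _ hTC
  have hsame : ∀ z ∈ S2, ∀ w ∈ sub S2 {a} z, w ∈ S2 ∧ w a = z a := by
    intro z hz w hw
    have h1 := mem_sub.1 hw
    exact ⟨h1.1, (h1.2 a (mem_singleton_self a)).symm⟩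
  have hop : ∀ (f : N → N) (B : AddMonoid.End U),
      (∀ η ∈ S, Op (Hc M π ∅ (Lv D ℓ) (sub S ∅ η) f) B K) → Op (Hc M π ∅ (Lv D ℓ) S f) B C := by
    intro f B hB
    have h1 := hB η0 hη0S
    rw [Pool.Agent.MF.sub_empty] at h1
    exact Op.mono h1 hKC
  refine
    { two := h.two
      ne := ⟨η0, hη0⟩
      add := fun u v => (hL.add u v).trans hKC
      cV := hL.cV.trans hKC
      densa := hdensa
      thr_sub := fun z _ => Pool.Agent.MF.sub_subset
      densb := hdensb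
      cola := hcol a haD1 ha0
      colb := hcol b hbD1 hb0
      colm := hcol _ (hE.mul_mem 0 (by omega) a haD b hbD) hm0
      colΘ := hcol _ (hE.th_mem 0 (by omega) a haD) hth0
      colζ := hcol _ (hE.ze_mem 0 (by omega) a haD) hze0
      colg := hcol _ (hE.g_mem 0 (by omega) a haD) hg0
      cols := hcol _ (hE.s_mem 0 (by omega) a haD) hs0
      colφ := hcol _ (hE.sq_mem 0 (by omega) a haD) hsq0
      mab := ?_
      mba := ?_
      Hm_card := ?_
      Hm_mem := ?_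
      opΘ := hop th Θ hF.oΘ
      opζ := hop ze Z hF.oZ
      opg := hop g γ hF.oγ
      ops := hop s σ hF.oσ
      opφ := hop sq φ hF.oφ
      memΘ := hmem th
      memζ := hmem ze
      memg := hmem g
      mems := hmem s
      memφ := hmem sq
      kφ1 := hF.kφ1.trans hKC
      lΘ := fun z hz => (hF.rΘ 0 (by omega) z (hS2S hz) a haD ha0).trans hKC
      rΘ := fun z hz => (hF.rΘ' 0 (by omega) z (hS2S hz) a haD ha0).trans hKC
      lζ := fun z hz => (hF.rZ 0 (by omega) z (hS2S hz) a haD ha0).trans hKC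
      rg := fun z hz => (hF.rγ 0 (by omega) z (hS2S hz) a haD ha0).trans hKC
      rs := fun z hz => (hF.rσ 0 (by omega) z (hS2S hz) a haD ha0).trans hKC
      rφ := fun z hz => (hF.rφ 0 (by omega) z (hS2S hz) a haD ha0).trans hKC
      sq := fun z hz => (hF.sqr 0 (by omega) z (hS2S hz) a haD ha0).trans hKC
      lab := ?_ }
  · intro z hz w hw
    obtain ⟨h1, h2⟩ := hsame z hz w hw
    have h3 := hF.prod 0 (by omega) w (hS2S h1) a haD b hbD hind
    rw [h2] at h3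
    exact h3.trans hKC
  · intro z hz w hw
    obtain ⟨h1, h2⟩ := hsame z hz w hw
    have h3 := hF.prod 0 (by omega) w (hS2S h1) b hbD a haD hind.symm
    rw [h2, hE.mul_comm 0 (by omega) b hbD a haD] at h3
    exact h3.trans hKC
  · intro z hz
    exact (hF.oA a (hlev ℓ le_rfl haD) ha0 z (hS2S hz)).card.trans (Nat.mul_le_mul_right _ hKC)
  · intro z hz w hw
    have h1 := mem_sub.1 hw
    exact Hc_mem (mem_sub.2 ⟨hS2S h1.1, h1.2⟩) hbL hncl (mul a)
  · exact ⟨h.two, (hop g γ hF.oγ).ker, (hop s σ hF.oσ).ker, hF.gT.trans hKC, hF.sT.trans hKC,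
      hF.zT.trans hKC, hF.zz.trans hKC⟩

/-- `rowsIn` with a larger constant -/
theorem RowsIn.mono {U Λ : Type} [AddCommGroup U] [Fintype U] [DecidableEq U] [DecidableEq Λ] {C C' : ℕ}
    {d : Dat U Λ} (h : RowsIn C d) (hC : C ≤ C') : RowsIn C' d where
  two := h.two
  ne := h.ne
  add u v := (h.add u v).trans hC
  cV := h.cV.trans hC
  densa m P hP hm := (h.densa m P hP hm).trans (by gcongr)
  thr_sub := h.thr_sub
  densb z hz m Q hQ hm := (h.densb z hz m Q hQ hm).trans (by gcongr)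
  cola z hz := by
    obtain ⟨ν, h1, h2⟩ := h.cola z hz
    exact ⟨ν, h1, h2.trans hC⟩
  colb z hz := by
    obtain ⟨ν, h1, h2⟩ := h.colb z hz
    exact ⟨ν, h1, h2.trans hC⟩
  colm z hz := by
    obtain ⟨ν, h1, h2⟩ := h.colm z hz
    exact ⟨ν, h1, h2.trans hC⟩
  colΘ z hz := by
    obtain ⟨ν, h1, h2⟩ := h.colΘ z hz
    exact ⟨ν, h1, h2.trans hC⟩
  colζ z hz := by
    obtain ⟨ν, h1, h2⟩ := h.colζ z hz
    exact ⟨ν, h1, h2.trans hC⟩
  colg z hz := by
    obtain ⟨ν, h1, h2⟩ := h.colg z hz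
    exact ⟨ν, h1, h2.trans hC⟩
  cols z hz := by
    obtain ⟨ν, h1, h2⟩ := h.cols z hz
    exact ⟨ν, h1, h2.trans hC⟩
  colφ z hz := by
    obtain ⟨ν, h1, h2⟩ := h.colφ z hz
    exact ⟨ν, h1, h2.trans hC⟩
  mab z hz w hw := (h.mab z hz w hw).trans hC
  mba z hz w hw := (h.mba z hz w hw).trans hC
  Hm_card z hz := (h.Hm_card z hz).trans (Nat.mul_le_mul_right _ hC)
  Hm_mem := h.Hm_mem
  opΘ := Op.mono h.opΘ hC
  opζ := Op.mono h.opζ hC
  opg := Op.mono h.opg hC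
  ops := Op.mono h.ops hC
  opφ := Op.mono h.opφ hC
  memΘ := h.memΘ
  memζ := h.memζ
  memg := h.memg
  mems := h.mems
  memφ := h.memφ
  kφ1 := h.kφ1.trans hC
  lΘ z hz := (h.lΘ z hz).trans hC
  rΘ z hz := (h.rΘ z hz).trans hC
  lζ z hz := (h.lζ z hz).trans hC
  rg z hz := (h.rg z hz).trans hC
  rs z hz := (h.rs z hz).trans hC
  rφ z hz := (h.rφ z hz).trans hC
  sq z hz := (h.sq z hz).trans hC
  lab := Lab.mono h.lab hC

end

/-- **INST, complete.**  `J ≥ ℓ + 4`, `ℓ ≥ 3`; all constants are chosen before `n`. -/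
theorem inst (hSub : Pool.Agent.MF.StmtSub) {N : Type} [AddCommGroup N] [Fintype N] [DecidableEq N] (M : Mat N)
    (Lin : Finset N) (a b : N) {J ℓ : ℕ} (h3 : 3 ≤ ℓ) (hℓJ : ℓ + 4 ≤ J) (D : ℕ → AddSubgroup N)
    (mul : N → N → N) (sq th ze g s : N → N) (hKA : KillAlg M Lin a b (mul a) (mul b) sq)
    (hE : EndAlg M Lin J D mul sq th ze g s) (T : ℕ) :
    ∃ (κ : ℝ) (c K C1 C : ℕ), 0 < κ ∧ 1 ≤ κ * c ∧ ∀ (n : ℕ) (R S : Finset (N → Fin n)) (U : Type)
      (_ : AddCommGroup U) (_ : Fintype U) (_ : DecidableEq U) (π : N → Fin n → U), 0 < n →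
      EMOut M n T R S U π →
      ∃ (S2 : Finset (N → Fin n)) (A : N → Fin n → AddMonoid.End U) (φ γ σ Θ Z : AddMonoid.End U)
        (L : U → AddMonoid.End U) (VV : Finset (AddMonoid.End U)) (ν : N → Fin n → AddMonoid.End U)
        (U0 : AddSubgroup U),
        JCOut M Finset.univ κ S S2 ∧ S2.Nonempty ∧ Exact M S2 ∧ n ^ M.r ≤ c * S2.card ∧
        RowF M D mul sq th ze g s ℓ K S π A φ γ σ Θ Z ∧
        Pool.Agent.helper53.MF9.LOut M (Lv D ℓ) S2 π A C1 L VV ν U0 ∧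
        RowsIn C (dat M D mul sq th ze g s ℓ a b S S2 π A φ γ σ Θ Z L VV) := by
  classical
  obtain ⟨κ, hκ, hS2⟩ := Pool.Agent.helper53.MF9.exists_S2 M T
  obtain ⟨K, hK1, hF⟩ := Pool.Agent.helper42.MF.row_facts hSub hKA.lin hE h3 hℓJ T
  have hsub : Lin ⊆ Lv D ℓ := Pool.Agent.helper42.MF.lin_Lv hE (by omega)
  obtain ⟨C1, hL⟩ := Pool.Agent.helper53.MF9.exists_LRows M Lin (Lv D ℓ) hKA.lin hsub
    (fun u hu v hv => mem_Lv.2 ((D ℓ).add_mem (mem_Lv.1 hu) (mem_Lv.1 hv))) T K κ hκ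
  obtain ⟨c, hc⟩ := exists_nat_ge κ⁻¹
  have hκc : 1 ≤ κ * c := by
    rw [inv_eq_one_div, div_le_iff₀ hκ] at hc
    linarith
  refine ⟨κ, c, K, C1, (K + C1) + T * c * T, hκ, hκc, ?_⟩
  intro n R S U i1 i2 i3 π hn h
  obtain ⟨S2, hJ, hne, hex⟩ := hS2 n R S U i1 i2 i3 π hn h
  obtain ⟨A, φ, γ, σ, Θ, Z, hRF⟩ := hF n R S U i1 i2 i3 π h
  obtain ⟨L, VV, ν, U0, hLO⟩ := hL n R S S2 U i1 i2 i3 π h hJ hne A
    (fun ρ hρ u hu v hv huv => hRF.line ρ hρ u (mem_Lv.1 hu) v (mem_Lv.1 hv) huv)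
  refine ⟨S2, A, φ, γ, σ, Θ, Z, L, VV, ν, U0, hJ, hne, hex, jc_card hJ hκc, hRF, hLO, ?_⟩
  have hRF' : RowF M D mul sq th ze g s ℓ (K + C1) S π A φ γ σ Θ Z := by
    have hm : K ≤ K + C1 := by omega
    exact
      { oA := fun w hw hw0 η hη => Op.mono (hRF.oA w hw hw0 η hη) hm
        oφ := fun η hη => Op.mono (hRF.oφ η hη) hm
        oγ := fun η hη => Op.mono (hRF.oγ η hη) hm
        oσ := fun η hη => Op.mono (hRF.oσ η hη) hm
        oΘ := fun η hη => Op.mono (hRF.oΘ η hη) hm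
        oZ := fun η hη => Op.mono (hRF.oZ η hη) hm
        kφ1 := hRF.kφ1.trans hm
        line := fun η hη u hu v hv huv => (hRF.line η hη u hu v hv huv).trans hm
        prod := fun t ht η hη u hu v hv huv => (hRF.prod t ht η hη u hu v hv huv).trans hm
        comm := fun t ht η hη u hu v hv huv => (hRF.comm t ht η hη u hu v hv huv).trans hm
        sqr := fun t ht η hη u hu hu0 => (hRF.sqr t ht η hη u hu hu0).trans hm
        rφ := fun t ht η hη u hu hu0 => (hRF.rφ t ht η hη u hu hu0).trans hm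
        rγ := fun t ht η hη u hu hu0 => (hRF.rγ t ht η hη u hu hu0).trans hm
        rσ := fun t ht η hη u hu hu0 => (hRF.rσ t ht η hη u hu hu0).trans hm
        rΘ := fun t ht η hη u hu hu0 => (hRF.rΘ t ht η hη u hu hu0).trans hm
        rΘ' := fun t ht η hη u hu hu0 => (hRF.rΘ' t ht η hη u hu hu0).trans hm
        rZ := fun t ht η hη u hu hu0 => (hRF.rZ t ht η hη u hu hu0).trans hm
        rZ' := fun t ht η hη u hu hu0 => (hRF.rZ' t ht η hη u hu hu0).trans hm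
        gT := hRF.gT.trans hm
        sT := hRF.sT.trans hm
        zT := hRF.zT.trans hm
        zz := hRF.zz.trans hm }
  have hD1 : D 1 ≤ D ℓ := Pool.Agent.helper42.MF.lev_le hE (by omega) (by omega)
  have hL' : LOut D 1 (K + C1) S2 π A L VV := by
    refine ⟨fun u v => (hLO.add u v).trans (by omega), hLO.cardV.trans (by omega), ?_⟩
    intro w hw hw0 ρ hρ
    have hw' : w ∈ Lv D ℓ := mem_Lv.2 (hD1 hw)
    refine ⟨ν w (ρ w), hLO.mem ρ hρ w hw' hw0, ?_⟩
    have h1 := hLO.op ρ hρ w hw' hw0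
    rw [add_assoc] at h1
    exact h1.trans (by omega)
  exact rowsIn hKA hE (by omega) (by omega) (by omega) hn h hJ hκc hRF' hL'

end Pool.Agent.helper65.MF
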